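import Mathlib

set_option autoImplicit false

namespace Pool.Agent.MTDS

open Finset

/-- The greedy walker: it scans the moduli `p 0, p 1, …` and, having made `s` steps so far, makes
a further step at `p i` exactly when `z ≡ -(s+1)` modulo `p i`. -/
def steps (p : ℕ → ℕ) : ℕ → ℤ → ℕ
  | 0, _ => 0
  | (i + 1), z => steps p i z + if ((p i : ℤ) ∣ z + (steps p i z : ℤ) + 1) then 1 else 0

/-- rank of `i` in `A` -/
def rk (A : Finset ℕ) (i : ℕ) : ℕ := (A.filter (fun t => t < i)).card

lemma rk_zero (A : Finset ℕ) : rk A 0 = 0 := by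
  simp [rk]

lemma rk_succ (A : Finset ℕ) (i : ℕ) : rk A (i + 1) = rk A i + if i ∈ A then 1 else 0 := by
  unfold rk
  by_cases h : i ∈ A
  · simp only [h, if_true]
    have : A.filter (fun t => t < i + 1) = insert i (A.filter (fun t => t < i)) := by
      ext t
      simp only [mem_filter, mem_insert]
      constructor
      · rintro ⟨h1, h2⟩
        rcases Nat.lt_succ_iff_lt_or_eq.mp h2 with h3 | h3
        · exact Or.inr ⟨h1, h3⟩
        · exact Or.inl h3
      · rintro (h1 | ⟨h1, h2⟩)
        · subst h1; exact ⟨h, Nat.lt_succ_self _⟩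
        · exact ⟨h1, Nat.lt_succ_of_lt h2⟩
    rw [this, card_insert_of_notMem (by simp)]
  · simp only [h, if_false, add_zero]
    congr 1
    ext t
    simp only [mem_filter]
    constructor
    · rintro ⟨h1, h2⟩
      refine ⟨h1, ?_⟩
      rcases Nat.lt_succ_iff_lt_or_eq.mp h2 with h3 | h3
      · exact h3
      · subst h3; exact absurd h1 h
    · rintro ⟨h1, h2⟩
      exact ⟨h1, Nat.lt_succ_of_lt h2⟩

lemma rk_of_subset_range (A : Finset ℕ) (K : ℕ) (h : A ⊆ range K) : rk A K = A.card := by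
  unfold rk
  congr 1
  ext t
  simp only [mem_filter, and_iff_left_iff_imp]
  intro ht
  exact mem_range.mp (h ht)

/-- Domination: if `z ≡ j - (rank+1)` modulo `p i` for all `i ∈ A`, then the greedy walker makes
at least `|A| - j` steps. -/
lemma steps_dom (p : ℕ → ℕ) (A : Finset ℕ) (z j : ℤ) (hj : 0 ≤ j)
    (h : ∀ i ∈ A, (p i : ℤ) ∣ z - j + (rk A i : ℤ) + 1) :
    ∀ i, (rk A i : ℤ) ≤ (steps p i z : ℤ) + j := by
  intro i
  induction i with
  | zero => simpa [rk_zero, steps] using hj
  | succ i ih =>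
    rw [rk_succ]
    by_cases hi : i ∈ A
    · simp only [hi, if_true]
      have hd := h i hi
      simp only [steps]
      rcases lt_or_eq_of_le ih with h1 | h1
      · split_ifs <;> push_cast <;> omega
      · have h2 : z + (steps p i z : ℤ) + 1 = z - j + (rk A i : ℤ) + 1 := by
          rw [h1]; ring
        rw [if_pos (by rw [h2]; exact hd)]
        push_cast
        omega
    · simp only [hi, if_false, add_zero]
      simp only [steps]
      push_cast
      have : (0 : ℤ) ≤ if (p i : ℤ) ∣ z + (steps p i z : ℤ) + 1 then (1 : ℤ) else 0 := by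
        split_ifs <;> norm_num
      linarith

/-- product of the first `i` moduli -/
def NN (p : ℕ → ℕ) (i : ℕ) : ℕ := ∏ t ∈ range i, p t

lemma NN_succ (p : ℕ → ℕ) (i : ℕ) : NN p (i + 1) = NN p i * p i := by
  simp [NN, prod_range_succ]

lemma NN_dvd (p : ℕ → ℕ) {t i : ℕ} (h : t < i) : p t ∣ NN p i :=
  dvd_prod_of_mem p (mem_range.mpr h)

lemma steps_periodic (p : ℕ → ℕ) : ∀ (i : ℕ) (z t : ℤ),
    steps p i (z + (NN p i : ℤ) * t) = steps p i z := by
  intro i
  induction i with
  | zero => intro z t; rfl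
  | succ i ih =>
    intro z t
    have h1 : steps p i (z + (NN p (i + 1) : ℤ) * t) = steps p i z := by
      have : (NN p (i + 1) : ℤ) * t = (NN p i : ℤ) * ((p i : ℤ) * t) := by
        rw [NN_succ]; push_cast; ring
      rw [this]
      exact ih z _
    simp only [steps]
    rw [h1]
    congr 1
    have h2 : ((p i : ℤ) ∣ z + (NN p (i + 1) : ℤ) * t + (steps p i z : ℤ) + 1) ↔
        ((p i : ℤ) ∣ z + (steps p i z : ℤ) + 1) := by
      have h3 : (p i : ℤ) ∣ (NN p (i + 1) : ℤ) * t := by
        apply Dvd.dvd.mul_right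
        exact_mod_cast NN_dvd p (Nat.lt_succ_self i)
      have h4 : z + (NN p (i + 1) : ℤ) * t + (steps p i z : ℤ) + 1 =
          (z + (steps p i z : ℤ) + 1) + (NN p (i + 1) : ℤ) * t := by ring
      rw [h4]
      exact (Int.dvd_add_left h3)
    simp only [h2]

/-- expectation operator of a sum of independent Bernoulli variables with parameters `w 0, w 1, …` -/
noncomputable def Ex (w : ℕ → ℝ) : ℕ → (ℕ → ℝ) → ℝ
  | 0, g => g 0
  | (i + 1), g => (1 - w i) * Ex w i g + w i * Ex w i (fun s => g (s + 1))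

/-- sum over a range of a product length -/
lemma sum_range_mul (N P : ℕ) (f : ℕ → ℝ) :
    ∑ z ∈ range (N * P), f z = ∑ t ∈ range P, ∑ z ∈ range N, f (z + N * t) := by
  induction P with
  | zero => simp
  | succ P ih =>
    rw [Nat.mul_succ, sum_range_add, ih, sum_range_succ]
    congr 1
    apply sum_congr rfl
    intro z _
    rw [add_comm]

lemma filter_dvd_eq (p N : ℕ) (hp : p.Prime) (hN : Nat.Coprime N p) (c : ℤ) :
    ∃ t0 ∈ range p, ∀ t ∈ range p, ((p : ℤ) ∣ c + (N : ℤ) * (t : ℤ)) ↔ t = t0 := by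
  have : Fact p.Prime := ⟨hp⟩
  have hN0 : (N : ZMod p) ≠ 0 := by
    intro h
    rw [ZMod.natCast_eq_zero_iff] at h
    have := Nat.Coprime.symm hN
    have h2 := Nat.Coprime.eq_one_of_dvd this h
    exact hp.one_lt.ne' h2
  refine ⟨(-(c : ZMod p) / (N : ZMod p)).val, mem_range.mpr (ZMod.val_lt _), ?_⟩
  intro t ht
  have ht' := mem_range.mp ht
  rw [← ZMod.intCast_zmod_eq_zero_iff_dvd]
  push_cast
  constructor
  · intro h
    have h1 : (t : ZMod p) = -(c : ZMod p) / (N : ZMod p) := by
      field_simp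
      linear_combination h
    rw [← h1, ZMod.val_cast_of_lt ht']
  · intro h
    have h1 : (t : ZMod p) = -(c : ZMod p) / (N : ZMod p) := by
      rw [h, ZMod.natCast_zmod_val]
    rw [h1]
    field_simp
    ring

lemma sum_ite_dvd (p N : ℕ) (hp : p.Prime) (hN : Nat.Coprime N p) (c : ℤ) (a b : ℝ) :
    ∑ t ∈ range p, (if ((p : ℤ) ∣ c + (N : ℤ) * (t : ℤ)) then a else b) = a + ((p : ℝ) - 1) * b := by
  obtain ⟨t0, ht0, h⟩ := filter_dvd_eq p N hp hN c
  have h1 : ∑ t ∈ range p, (if ((p : ℤ) ∣ c + (N : ℤ) * (t : ℤ)) then a else b)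
      = ∑ t ∈ range p, ((if t = t0 then (a - b) else 0) + b) := by
    apply sum_congr rfl
    intro t ht
    by_cases hh : t = t0
    · rw [if_pos ((h t ht).mpr hh), if_pos hh]; ring
    · rw [if_neg (fun h' => hh ((h t ht).mp h')), if_neg hh]; ring
  rw [h1, sum_add_distrib, sum_ite_eq' (range p) t0, if_pos ht0]
  simp
  ring

lemma NN_coprime (p : ℕ → ℕ) (hp : ∀ i, (p i).Prime) (hinj : Function.Injective p) (i : ℕ) :
    Nat.Coprime (NN p i) (p i) := by
  unfold NN
  apply Nat.Coprime.prod_left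
  intro t ht
  rw [Nat.coprime_primes (hp t) (hp i)]
  intro h
  have := hinj h
  have := mem_range.mp ht
  omega

lemma sum_steps (p : ℕ → ℕ) (hp : ∀ i, (p i).Prime) (hinj : Function.Injective p) :
    ∀ (i : ℕ) (g : ℕ → ℝ), ∑ z ∈ range (NN p i), g (steps p i (z : ℤ)) =
      (NN p i : ℝ) * Ex (fun i => 1 / (p i : ℝ)) i g := by
  intro i
  induction i with
  | zero => intro g; simp [NN, Ex, steps]
  | succ i ih =>
    intro g
    have hp0 : (p i : ℝ) ≠ 0 := by
      exact_mod_cast (hp i).ne_zero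
    rw [NN_succ, sum_range_mul, sum_comm]
    have h1 : ∀ z ∈ range (NN p i), ∑ t ∈ range (p i), g (steps p (i + 1) (((z + NN p i * t : ℕ)) : ℤ))
        = g (steps p i z + 1) + ((p i : ℝ) - 1) * g (steps p i z) := by
      intro z _
      rw [← sum_ite_dvd (p i) (NN p i) (hp i) (NN_coprime p hp hinj i) ((z : ℤ) + (steps p i z : ℤ) + 1)]
      apply sum_congr rfl
      intro t _
      have h2 : steps p i ((z : ℤ) + (NN p i : ℤ) * (t : ℤ)) = steps p i z := steps_periodic p i z t
      have h3 : (((z + NN p i * t : ℕ)) : ℤ) = (z : ℤ) + (NN p i : ℤ) * (t : ℤ) := by push_cast; ring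
      rw [h3]
      simp only [steps]
      rw [h2]
      have h4 : (z : ℤ) + (NN p i : ℤ) * (t : ℤ) + (steps p i z : ℤ) + 1 =
          (z : ℤ) + (steps p i z : ℤ) + 1 + (NN p i : ℤ) * (t : ℤ) := by ring
      rw [h4]
      split_ifs <;> simp
    rw [sum_congr rfl h1, sum_add_distrib, ← mul_sum, ih, ih (fun s => g (s + 1))]
    simp only [Ex]
    push_cast
    field_simp
    ring

end Pool.Agent.MTDS
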