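import Mathlib
import Pool.Agent.Lib.MP_649c59_nt.Walk

set_option autoImplicit false

namespace Pool.Agent.MTDS

open Finset

section Exlemmas

variable (w : ℕ → ℝ)

lemma Ex_add (i : ℕ) : ∀ (f g : ℕ → ℝ), Ex w i (fun s => f s + g s) = Ex w i f + Ex w i g := by
  induction i with
  | zero => intro f g; simp [Ex]
  | succ i ih =>
    intro f g
    simp only [Ex]
    rw [ih f g, ih (fun s => f (s + 1)) (fun s => g (s + 1))]
    ring

lemma Ex_smul (i : ℕ) : ∀ (c : ℝ) (f : ℕ → ℝ), Ex w i (fun s => c * f s) = c * Ex w i f := by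
  induction i with
  | zero => intro c f; simp [Ex]
  | succ i ih =>
    intro c f
    simp only [Ex]
    rw [ih c f, ih c (fun s => f (s + 1))]
    ring

lemma Ex_const (i : ℕ) (c : ℝ) : Ex w i (fun _ => c) = c := by
  induction i with
  | zero => simp [Ex]
  | succ i ih =>
    simp only [Ex]
    rw [ih]
    ring

lemma Ex_mono (hw0 : ∀ i, 0 ≤ w i) (hw1 : ∀ i, w i ≤ 1) (i : ℕ) :
    ∀ (f g : ℕ → ℝ), (∀ s, f s ≤ g s) → Ex w i f ≤ Ex w i g := by
  induction i with
  | zero => intro f g h; simpa [Ex] using h 0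
  | succ i ih =>
    intro f g h
    simp only [Ex]
    have h1 := ih f g h
    have h2 := ih (fun s => f (s + 1)) (fun s => g (s + 1)) (fun s => h (s + 1))
    have h3 : 0 ≤ 1 - w i := by linarith [hw1 i]
    have h4 := hw0 i
    nlinarith [mul_le_mul_of_nonneg_left h1 h3, mul_le_mul_of_nonneg_left h2 h4]

lemma Ex_nonneg (hw0 : ∀ i, 0 ≤ w i) (hw1 : ∀ i, w i ≤ 1) (i : ℕ) (f : ℕ → ℝ)
    (h : ∀ s, 0 ≤ f s) : 0 ≤ Ex w i f := by
  have := Ex_mono w hw0 hw1 i (fun _ => 0) f h
  rwa [Ex_const] at this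

lemma Ex_sum {ι : Type*} (i : ℕ) (W : Finset ι) (f : ι → ℕ → ℝ) :
    Ex w i (fun s => ∑ a ∈ W, f a s) = ∑ a ∈ W, Ex w i (f a) := by
  classical
  induction W using Finset.induction_on with
  | empty => simp [Ex_const]
  | insert a W ha ih =>
    simp only [sum_insert ha]
    rw [Ex_add w i (f a) (fun s => ∑ a ∈ W, f a s), ih]

lemma Ex_sq (i : ℕ) : ∀ (c : ℝ), Ex w i (fun s => ((s : ℝ) - c) ^ 2) =
    ∑ t ∈ range i, w t * (1 - w t) + (∑ t ∈ range i, w t - c) ^ 2 := by
  induction i with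
  | zero => intro c; simp [Ex]
  | succ i ih =>
    intro c
    simp only [Ex]
    have h1 : (fun s : ℕ => (((s + 1 : ℕ) : ℝ) - c) ^ 2) = (fun s : ℕ => ((s : ℝ) - (c - 1)) ^ 2) := by
      funext s; push_cast; ring
    rw [h1, ih c, ih (c - 1), sum_range_succ, sum_range_succ]
    ring

/-- Chebyshev -/
lemma Ex_cheb (hw0 : ∀ i, 0 ≤ w i) (hw1 : ∀ i, w i ≤ 1) (i : ℕ) (a : ℝ) (ha : 0 < a)
    (f : ℕ → ℝ) (hf : ∀ s : ℕ, f s ≤ 1) (hf2 : ∀ s : ℕ, |(s : ℝ) - ∑ t ∈ range i, w t| < a → f s ≤ 0) :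
    Ex w i f ≤ (∑ t ∈ range i, w t) / a ^ 2 := by
  set lam := ∑ t ∈ range i, w t with hlam
  have h1 : Ex w i f ≤ Ex w i (fun s => (1 / a ^ 2) * ((s : ℝ) - lam) ^ 2) := by
    apply Ex_mono w hw0 hw1
    intro s
    by_cases h : |(s : ℝ) - lam| < a
    · have := hf2 s h
      have h2 : 0 ≤ (1 / a ^ 2) * ((s : ℝ) - lam) ^ 2 := by positivity
      linarith
    · push Not at h
      have h2 : a ^ 2 ≤ ((s : ℝ) - lam) ^ 2 := by
        rw [← sq_abs ((s : ℝ) - lam)]
        exact pow_le_pow_left₀ ha.le h 2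
      have h3 : 1 ≤ (1 / a ^ 2) * ((s : ℝ) - lam) ^ 2 := by
        rw [one_div, inv_mul_eq_div, le_div_iff₀ (by positivity)]
        linarith
      linarith [hf s]
  rw [Ex_smul, Ex_sq] at h1
  have h4 : ∑ t ∈ range i, w t * (1 - w t) ≤ lam := by
    rw [hlam]
    apply sum_le_sum
    intro t _
    nlinarith [hw0 t, hw1 t]
  have h5 : (1 / a ^ 2) * (∑ t ∈ range i, w t * (1 - w t) + (lam - lam) ^ 2) ≤ lam / a ^ 2 := by
    rw [sub_self, one_div, inv_mul_eq_div]
    apply div_le_div_of_nonneg_right _ (by positivity)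
    nlinarith
  linarith

/-- point masses -/
noncomputable def Pm (i s : ℕ) : ℝ := Ex w i (fun t => if t = s then 1 else 0)

lemma Pm_nonneg (hw0 : ∀ i, 0 ≤ w i) (hw1 : ∀ i, w i ≤ 1) (i s : ℕ) : 0 ≤ Pm w i s := by
  apply Ex_nonneg w hw0 hw1
  intro t
  split_ifs <;> norm_num

lemma Pm_succ_zero (i : ℕ) : Pm w (i + 1) 0 = (1 - w i) * Pm w i 0 := by
  unfold Pm
  simp only [Ex]
  have : (fun s : ℕ => if s + 1 = 0 then (1 : ℝ) else 0) = fun _ => 0 := by
    funext s; simp
  rw [this, Ex_const]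
  ring

lemma Pm_succ_succ (i s : ℕ) : Pm w (i + 1) (s + 1) = (1 - w i) * Pm w i (s + 1) + w i * Pm w i s := by
  unfold Pm
  simp only [Ex]
  have : (fun t : ℕ => if t + 1 = s + 1 then (1 : ℝ) else 0) = fun t => if t = s then 1 else 0 := by
    funext t; simp
  rw [this]

/-- the ratio bound -/
lemma Pm_ratio (m : ℝ) (hw0 : ∀ i, 0 ≤ w i) (hw1 : ∀ i, w i ≤ 1) (hm : ∀ i, w i ≤ m) (i : ℕ) :
    ∀ s : ℕ, (∑ t ∈ range i, w t - s * m) * Pm w i s ≤ ((s : ℝ) + 1) * Pm w i (s + 1) := by
  induction i with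
  | zero =>
    intro s
    rcases s with _ | s
    · simp [Pm, Ex]
    · simp [Pm, Ex]
  | succ i ih =>
    intro s
    have hPn := Pm_nonneg w hw0 hw1 i
    have w0 := hw0 i
    have w1 : 0 ≤ 1 - w i := by linarith [hw1 i]
    have hmi := hm i
    rcases s with _ | s
    · rw [Pm_succ_zero, Pm_succ_succ, sum_range_succ]
      have h0 := ih 0
      simp only [Nat.cast_zero, zero_mul, sub_zero, zero_add, one_mul] at h0 ⊢
      have h1 := mul_le_mul_of_nonneg_left h0 w1
      nlinarith [mul_nonneg (mul_nonneg w0 w0) (hPn 0)]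
    · rw [Pm_succ_succ, Pm_succ_succ, sum_range_succ]
      have h0 := ih (s + 1)
      have h0' := ih s
      set lam := ∑ t ∈ range i, w t
      have h1 := mul_le_mul_of_nonneg_left h0 w1
      have h2 := mul_le_mul_of_nonneg_left h0' w0
      have h3 : 0 ≤ w i * w i * Pm w i (s + 1) := mul_nonneg (mul_nonneg w0 w0) (hPn (s + 1))
      have h4 : 0 ≤ w i * (m - w i) * Pm w i s :=
        mul_nonneg (mul_nonneg w0 (by linarith)) (hPn s)
      push_cast at h1 h2 ⊢
      nlinarith

lemma Ex_indicator (i : ℕ) (W : Finset ℕ) :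
    Ex w i (fun t => if t ∈ W then 1 else 0) = ∑ s ∈ W, Pm w i s := by
  unfold Pm
  rw [← Ex_sum w i W (fun s t => if t = s then (1 : ℝ) else 0)]
  congr 1
  funext t
  rw [sum_ite_eq W t]

lemma Ex_powerset (i : ℕ) : ∀ (g : ℕ → ℝ),
    ∑ A ∈ (range i).powerset, ((∏ t ∈ A, w t) * (∏ t ∈ range i \ A, (1 - w t))) * g A.card
      = Ex w i g := by
  induction i with
  | zero => intro g; simp [Ex]
  | succ i ih =>
    intro g
    rw [range_add_one, sum_powerset_insert (by simp : i ∉ range i)]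
    simp only [Ex]
    rw [← ih g, ← ih (fun s => g (s + 1)), mul_sum, mul_sum]
    congr 1
    · apply sum_congr rfl
      intro A hA
      have hA' := mem_powerset.mp hA
      have hiA : i ∉ A := fun h => by simpa using hA' h
      have : insert i (range i) \ A = insert i (range i \ A) := by
        ext t
        simp only [mem_sdiff, mem_insert]
        constructor
        · rintro ⟨h1 | h1, h2⟩
          · exact Or.inl h1
          · exact Or.inr ⟨h1, h2⟩
        · rintro (h1 | ⟨h1, h2⟩)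
          · subst h1; exact ⟨Or.inl rfl, hiA⟩
          · exact ⟨Or.inr h1, h2⟩
      rw [this, prod_insert (by simp)]
      ring
    · apply sum_congr rfl
      intro A hA
      have hA' := mem_powerset.mp hA
      have hiA : i ∉ A := fun h => by simpa using hA' h
      have : insert i (range i) \ insert i A = range i \ A := by
        ext t
        simp only [mem_sdiff, mem_insert]
        constructor
        · rintro ⟨h1 | h1, h2⟩
          · exact absurd (Or.inl h1) h2
          · exact ⟨h1, fun h => h2 (Or.inr h)⟩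
        · rintro ⟨h1, h2⟩
          refine ⟨Or.inr h1, ?_⟩
          rintro (h3 | h3)
          · subst h3; simp at h1
          · exact h2 h3
      rw [this, prod_insert hiA, card_insert_of_notMem hiA]
      ring

end Exlemmas

end Pool.Agent.MTDS
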