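import Mathlib
import Pool.Agent.Lib.MP_649c59_nt.Tail

set_option autoImplicit false

namespace Pool.Agent.MTDS

open Finset

lemma rho_pow (R : ℕ) (hR : 1 ≤ R) : (1 / 2 : ℝ) ≤ (1 - 1 / (2 * (R : ℝ))) ^ R := by
  have hR' : (1 : ℝ) ≤ R := by exact_mod_cast hR
  have h := one_add_mul_le_pow (a := -(1 / (2 * (R : ℝ)))) (by
    have : 1 / (2 * (R : ℝ)) ≤ 1 := by
      rw [div_le_one (by positivity)]; linarith
    linarith) R
  have h2 : (1 : ℝ) + (R : ℝ) * -(1 / (2 * (R : ℝ))) = 1 / 2 := by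
    field_simp
    ring
  rw [h2] at h
  have h3 : (1 : ℝ) + -(1 / (2 * (R : ℝ))) = 1 - 1 / (2 * (R : ℝ)) := by ring
  rwa [h3] at h

/-- lower bound for the mass of the window `[k, k+M)` where `k = M²+(T+2)M+1`. -/
lemma window_lower (w : ℕ → ℝ) (m : ℝ) (hw0 : ∀ i, 0 ≤ w i) (hw1 : ∀ i, w i ≤ 1)
    (hm : ∀ i, w i ≤ m) (K T C R M : ℕ) (hT1 : 1 ≤ T) (hC : C = T + 4) (hR : 1 ≤ R) (hM : M = 2 * (C + 1) * R)
    (hlam1 : (M : ℝ) ^ 2 ≤ ∑ t ∈ range K, w t) (hlam2 : ∑ t ∈ range K, w t ≤ (M : ℝ) ^ 2 + 1)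
    (hmm : ((M : ℝ) ^ 2 + C * M) * m ≤ 1) :
    (1 / 16 : ℝ) * (1 / 2) ^ (2 * (C + 1) * (C + 3)) ≤
      ∑ s ∈ Ico (M ^ 2 + (T + 2) * M + 1) (M ^ 2 + (T + 2) * M + 1 + M), Pm w K s := by
  set lam := ∑ t ∈ range K, w t with hlam
  have hM10 : 10 ≤ M := by
    rw [hM, hC]
    nlinarith
  have hM10' : (10 : ℝ) ≤ M := by exact_mod_cast hM10
  have hm0 : 0 ≤ m := le_trans (hw0 0) (hm 0)
  -- Step 1
  obtain ⟨s1, hs1, hP1⟩ : ∃ s1 ∈ Icc (M ^ 2 - 3 * M) (M ^ 2 + 3 * M + 1), 1 / (16 * (M : ℝ)) ≤ Pm w K s1 := by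
    by_contra hcon
    push Not at hcon
    have h1 : ∑ s ∈ Icc (M ^ 2 - 3 * M) (M ^ 2 + 3 * M + 1), Pm w K s ≤
        ∑ s ∈ Icc (M ^ 2 - 3 * M) (M ^ 2 + 3 * M + 1), 1 / (16 * (M : ℝ)) :=
      sum_le_sum (fun s hs => (hcon s hs).le)
    rw [sum_const, Nat.card_Icc, nsmul_eq_mul] at h1
    have h3M : 3 * M ≤ M ^ 2 := by nlinarith
    have hcard : ((M ^ 2 + 3 * M + 1 + 1 - (M ^ 2 - 3 * M) : ℕ) : ℝ) = 6 * M + 2 := by
      have : M ^ 2 + 3 * M + 1 + 1 - (M ^ 2 - 3 * M) = 6 * M + 2 := by omega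
      rw [this]; push_cast; ring
    rw [hcard] at h1
    have h2 : (6 * (M : ℝ) + 2) * (1 / (16 * (M : ℝ))) ≤ 1 / 2 := by
      rw [mul_one_div, div_le_iff₀ (by positivity)]
      linarith
    have h3 : Ex w K (fun s => if s ∈ Icc (M ^ 2 - 3 * M) (M ^ 2 + 3 * M + 1) then 0 else 1) ≤
        lam / (3 * (M : ℝ)) ^ 2 := by
      apply Ex_cheb w hw0 hw1 K (3 * M) (by positivity)
      · intro s
        split_ifs <;> norm_num
      · intro s hs
        rw [← hlam] at hs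
        rw [if_pos]
        rw [abs_lt] at hs
        rw [mem_Icc]
        constructor
        · have : ((M ^ 2 : ℕ) : ℝ) < (s : ℝ) + 3 * M := by
            push_cast; linarith [hs.1]
          have h' : M ^ 2 < s + 3 * M := by exact_mod_cast this
          omega
        · have : (s : ℝ) < ((M ^ 2 + 3 * M + 1 : ℕ) : ℝ) := by
            push_cast; linarith [hs.2]
          have h' : s < M ^ 2 + 3 * M + 1 := by exact_mod_cast this
          omega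
    have h4 : lam / (3 * (M : ℝ)) ^ 2 ≤ 1 / 4 := by
      rw [div_le_iff₀ (by positivity)]
      nlinarith
    have h5 : Ex w K (fun s => if s ∈ Icc (M ^ 2 - 3 * M) (M ^ 2 + 3 * M + 1) then 1 else 0) +
        Ex w K (fun s => if s ∈ Icc (M ^ 2 - 3 * M) (M ^ 2 + 3 * M + 1) then 0 else 1) = 1 := by
      rw [← Ex_add]
      have : (fun s => (if s ∈ Icc (M ^ 2 - 3 * M) (M ^ 2 + 3 * M + 1) then (1 : ℝ) else 0) +
        (if s ∈ Icc (M ^ 2 - 3 * M) (M ^ 2 + 3 * M + 1) then (0 : ℝ) else 1)) = fun _ => 1 := by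
        funext s
        split_ifs <;> norm_num
      rw [this, Ex_const]
    rw [Ex_indicator] at h5
    linarith
  -- Step 2
  have hR' : (1 : ℝ) ≤ R := by exact_mod_cast hR
  set rho : ℝ := 1 - 1 / (2 * (R : ℝ)) with hrho
  have hinv : 1 / (2 * (R : ℝ)) ≤ 1 / 2 := by
    rw [div_le_div_iff₀ (by positivity) (by norm_num)]; linarith
  have hinv0 : 0 < 1 / (2 * (R : ℝ)) := by positivity
  have hrho0 : 0 ≤ rho := by rw [hrho]; linarith
  have hrho1 : rho ≤ 1 := by rw [hrho]; linarith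
  have hMR : (M : ℝ) = 2 * ((C : ℝ) + 1) * R := by rw [hM]; push_cast; ring
  have hrM : rho * ((M : ℝ) ^ 2 + C * M) ≤ (M : ℝ) ^ 2 - 1 := by
    have hx : 1 / (2 * (R : ℝ)) * (M : ℝ) = (C : ℝ) + 1 := by
      rw [hMR]; field_simp
    have hC0 : (0 : ℝ) ≤ C := Nat.cast_nonneg C
    have : rho * ((M : ℝ) ^ 2 + C * M) = (M : ℝ) ^ 2 + C * M - (1 / (2 * (R : ℝ)) * M) * (M + C) := by
      rw [hrho]; ring
    rw [this, hx]
    nlinarith
  have hstep : ∀ s : ℕ, s + 1 ≤ M ^ 2 + C * M → rho * Pm w K s ≤ Pm w K (s + 1) := by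
    intro s hs
    have hs' : (s : ℝ) + 1 ≤ (M : ℝ) ^ 2 + C * M := by exact_mod_cast hs
    have h1 := Pm_ratio w m hw0 hw1 hm K s
    have hPn := Pm_nonneg w hw0 hw1 K s
    have h2 : (s : ℝ) * m ≤ 1 := by
      have : (s : ℝ) * m ≤ ((M : ℝ) ^ 2 + C * M) * m :=
        mul_le_mul_of_nonneg_right (by linarith) hm0
      linarith
    have h3 : ((M : ℝ) ^ 2 - 1) * Pm w K s ≤ (lam - s * m) * Pm w K s :=
      mul_le_mul_of_nonneg_right (by linarith) hPn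
    have h4 : rho * ((s : ℝ) + 1) ≤ (M : ℝ) ^ 2 - 1 := by
      have : rho * ((s : ℝ) + 1) ≤ rho * ((M : ℝ) ^ 2 + C * M) :=
        mul_le_mul_of_nonneg_left hs' hrho0
      linarith
    have h5 : rho * ((s : ℝ) + 1) * Pm w K s ≤ ((M : ℝ) ^ 2 - 1) * Pm w K s :=
      mul_le_mul_of_nonneg_right h4 hPn
    have h6 : ((s : ℝ) + 1) * (rho * Pm w K s) ≤ ((s : ℝ) + 1) * Pm w K (s + 1) := by
      have : ((s : ℝ) + 1) * (rho * Pm w K s) = rho * ((s : ℝ) + 1) * Pm w K s := by ring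
      linarith
    exact le_of_mul_le_mul_left h6 (by positivity)
  have hiter : ∀ n : ℕ, s1 + n ≤ M ^ 2 + C * M → rho ^ n * Pm w K s1 ≤ Pm w K (s1 + n) := by
    intro n
    induction n with
    | zero => intro _; simp
    | succ n ih =>
      intro hn
      have h1 := ih (by omega)
      have h2 := hstep (s1 + n) (by omega)
      have h3 : rho * (rho ^ n * Pm w K s1) ≤ rho * Pm w K (s1 + n) :=
        mul_le_mul_of_nonneg_left h1 hrho0
      calc rho ^ (n + 1) * Pm w K s1 = rho * (rho ^ n * Pm w K s1) := by ring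
        _ ≤ rho * Pm w K (s1 + n) := h3
        _ ≤ Pm w K (s1 + n + 1) := h2
        _ = Pm w K (s1 + (n + 1)) := by rw [add_assoc]
  -- Step 3
  rw [mem_Icc] at hs1
  have hbig : ∀ s ∈ Ico (M ^ 2 + (T + 2) * M + 1) (M ^ 2 + (T + 2) * M + 1 + M),
      1 / (16 * (M : ℝ)) * (1 / 2) ^ (2 * (C + 1) * (C + 3)) ≤ Pm w K s := by
    intro s hs
    rw [mem_Ico] at hs
    have hCM : M ^ 2 + (T + 2) * M + 1 + M ≤ M ^ 2 + C * M := by
      rw [hC]; nlinarith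
    have h3M : 3 * M ≤ M ^ 2 := by nlinarith
    by_cases hT : s1 ≤ s
    · obtain ⟨n, rfl⟩ := Nat.exists_eq_add_of_le hT
      have hn : n ≤ R * (2 * (C + 1) * (C + 3)) := by
        have h1 : n ≤ C * M + 3 * M := by omega
        have h2 : C * M + 3 * M = R * (2 * (C + 1) * (C + 3)) := by
          rw [hM]; ring
        omega
      have h1 := hiter n (by omega)
      have h2 : (1 / 2 : ℝ) ^ (2 * (C + 1) * (C + 3)) ≤ rho ^ n := by
        calc (1 / 2 : ℝ) ^ (2 * (C + 1) * (C + 3)) ≤ (rho ^ R) ^ (2 * (C + 1) * (C + 3)) :=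
              pow_le_pow_left₀ (by norm_num) (rho_pow R hR) _
          _ = rho ^ (R * (2 * (C + 1) * (C + 3))) := by rw [← pow_mul]
          _ ≤ rho ^ n := pow_le_pow_of_le_one hrho0 hrho1 hn
      calc 1 / (16 * (M : ℝ)) * (1 / 2) ^ (2 * (C + 1) * (C + 3))
          ≤ Pm w K s1 * rho ^ n := mul_le_mul hP1 h2 (by positivity) (Pm_nonneg w hw0 hw1 K s1)
        _ = rho ^ n * Pm w K s1 := by ring
        _ ≤ _ := h1
    · exfalso
      push Not at hT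
      have h1 : s1 ≤ M ^ 2 + 3 * M + 1 := hs1.2
      nlinarith
  have hsum : ∑ s ∈ Ico (M ^ 2 + (T + 2) * M + 1) (M ^ 2 + (T + 2) * M + 1 + M),
      (1 / (16 * (M : ℝ)) * (1 / 2) ^ (2 * (C + 1) * (C + 3))) ≤
      ∑ s ∈ Ico (M ^ 2 + (T + 2) * M + 1) (M ^ 2 + (T + 2) * M + 1 + M), Pm w K s :=
    sum_le_sum hbig
  rw [sum_const, Nat.card_Ico, nsmul_eq_mul] at hsum
  have hM0 : (M : ℝ) ≠ 0 := by positivity
  have h1 : ((M ^ 2 + (T + 2) * M + 1 + M - (M ^ 2 + (T + 2) * M + 1) : ℕ) : ℝ) = M := by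
    congr 1
    omega
  rw [h1] at hsum
  calc (1 / 16 : ℝ) * (1 / 2) ^ (2 * (C + 1) * (C + 3))
      = (M : ℝ) * (1 / (16 * (M : ℝ)) * (1 / 2) ^ (2 * (C + 1) * (C + 3))) := by
        field_simp
    _ ≤ _ := hsum

end Pool.Agent.MTDS
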