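import Mathlib
import Pool.Agent.Lib.MP_649c59_nt.Lower

set_option autoImplicit false

namespace Pool.Agent.MTDS

open Finset MeasureTheory

lemma crt (p : ℕ → ℕ) (hp : ∀ i, (p i).Prime) (hinj : Function.Injective p) (b : ℕ → ℤ)
    (A : Finset ℕ) : ∃ a : ℤ, ∀ i ∈ A, (p i : ℤ) ∣ a - b i := by
  induction A using Finset.induction_on with
  | empty => exact ⟨0, by simp⟩
  | insert i A hi ih =>
    obtain ⟨a, ha⟩ := ih
    have hcop : Nat.Coprime (∏ t ∈ A, p t) (p i) := by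
      apply Nat.Coprime.prod_left
      intro t ht
      rw [Nat.coprime_primes (hp t) (hp i)]
      intro h
      have := hinj h
      subst this
      exact hi ht
    obtain ⟨t0, ht0, h0⟩ := filter_dvd_eq (p i) (∏ t ∈ A, p t) (hp i) hcop (a - b i)
    refine ⟨a + ((∏ t ∈ A, p t : ℕ) : ℤ) * (t0 : ℤ), ?_⟩
    intro i' hi'
    rw [mem_insert] at hi'
    rcases hi' with rfl | hi'
    · have := (h0 t0 ht0).mpr rfl
      have h2 : a + ((∏ t ∈ A, p t : ℕ) : ℤ) * (t0 : ℤ) - b i' =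
        a - b i' + ((∏ t ∈ A, p t : ℕ) : ℤ) * (t0 : ℤ) := by ring
      rw [h2]; exact this
    · have h1 := ha i' hi'
      have h3 : (p i' : ℤ) ∣ ((∏ t ∈ A, p t : ℕ) : ℤ) := by
        exact_mod_cast dvd_prod_of_mem p hi'
      have h2 : a + ((∏ t ∈ A, p t : ℕ) : ℤ) * (t0 : ℤ) - b i' =
        (a - b i') + ((∏ t ∈ A, p t : ℕ) : ℤ) * (t0 : ℤ) := by ring
      rw [h2]
      exact dvd_add h1 (Dvd.dvd.mul_right h3 _)

/-- the shift attached to `A` -/
noncomputable def shiftA (p : ℕ → ℕ) (hp : ∀ i, (p i).Prime) (hinj : Function.Injective p)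
    (Δ : ℕ) (A : Finset ℕ) : ℤ :=
  Classical.choose (crt p hp hinj (fun i => (Δ : ℤ) - ((rk A i : ℤ) + 1)) A)

lemma shiftA_spec (p : ℕ → ℕ) (hp : ∀ i, (p i).Prime) (hinj : Function.Injective p)
    (Δ : ℕ) (A : Finset ℕ) : ∀ i ∈ A,
    (p i : ℤ) ∣ shiftA p hp hinj Δ A - ((Δ : ℤ) - ((rk A i : ℤ) + 1)) :=
  Classical.choose_spec (crt p hp hinj (fun i => (Δ : ℤ) - ((rk A i : ℤ) + 1)) A)

lemma key_dom (p : ℕ → ℕ) (hp : ∀ i, (p i).Prime) (hinj : Function.Injective p)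
    (Δ K : ℕ) (A : Finset ℕ) (hA : A ⊆ range K) (q : ℕ)
    (hq : q * ∏ t ∈ A, p t = NN p K) (x : ℝ) (a : ℤ)
    (h : |(q : ℝ) * x - (a : ℝ) - (shiftA p hp hinj Δ A : ℝ) / ((∏ t ∈ A, p t : ℕ) : ℝ)| <
      (Δ : ℝ) / ((∏ t ∈ A, p t : ℕ) : ℝ)) :
    A.card + 1 ≤ steps p K ⌊(NN p K : ℝ) * x⌋ + 2 * Δ := by
  set n := ∏ t ∈ A, p t with hn
  have hn0 : 0 < n := prod_pos (fun i _ => (hp i).pos)
  have hn0' : (0 : ℝ) < n := by exact_mod_cast hn0
  set s := shiftA p hp hinj Δ A with hs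
  set z := ⌊(NN p K : ℝ) * x⌋ with hz
  have h1 : |(NN p K : ℝ) * x - ((a * n + s : ℤ) : ℝ)| < Δ := by
    have h2 : (NN p K : ℝ) * x - ((a * n + s : ℤ) : ℝ) = (n : ℝ) * ((q : ℝ) * x - (a : ℝ) - (s : ℝ) / (n : ℝ)) := by
      rw [← hq]; push_cast; field_simp; ring
    rw [h2, abs_mul, abs_of_pos hn0']
    calc (n : ℝ) * |(q : ℝ) * x - (a : ℝ) - (s : ℝ) / (n : ℝ)| < (n : ℝ) * ((Δ : ℝ) / (n : ℝ)) :=
          mul_lt_mul_of_pos_left h hn0'
      _ = Δ := by field_simp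
  rw [abs_lt] at h1
  have hz1 : (z : ℝ) ≤ (NN p K : ℝ) * x := Int.floor_le _
  have hz2 : (NN p K : ℝ) * x < (z : ℝ) + 1 := Int.lt_floor_add_one _
  set m : ℤ := a * n + s with hm
  have hj1 : z - m < (Δ : ℤ) := by
    have : ((z - m : ℤ) : ℝ) < ((Δ : ℤ) : ℝ) := by push_cast; push_cast at h1; linarith [h1.2]
    exact_mod_cast this
  have hj2 : -(Δ : ℤ) ≤ z - m := by
    have : ((-(Δ : ℤ) - 1 : ℤ) : ℝ) < ((z - m : ℤ) : ℝ) := by
      push_cast; push_cast at h1; linarith [h1.1]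
    have h' : (-(Δ : ℤ) - 1 : ℤ) < z - m := by exact_mod_cast this
    omega
  have hdom := steps_dom p A z (z - m + Δ) (by omega) (by
    intro i hi
    have h3 := shiftA_spec p hp hinj Δ A i hi
    rw [← hs] at h3
    have h4 : z - (z - m + (Δ : ℤ)) + (rk A i : ℤ) + 1 = a * n + (s - ((Δ : ℤ) - ((rk A i : ℤ) + 1))) := by
      rw [hm]; ring
    rw [h4]
    apply dvd_add _ h3
    apply Dvd.dvd.mul_left
    have : p i ∣ n := dvd_prod_of_mem p hi
    exact_mod_cast this) K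
  rw [rk_of_subset_range A K hA] at hdom
  omega

/-- measure of the walker event -/
lemma meas_walker (p : ℕ → ℕ) (hp : ∀ i, (p i).Prime) (hinj : Function.Injective p)
    (K h : ℕ) :
    volume {x : ℝ | x ∈ Set.Icc (0 : ℝ) 1 ∧ h ≤ steps p K ⌊(NN p K : ℝ) * x⌋} ≤
      ENNReal.ofReal (Ex (fun i => 1 / (p i : ℝ)) K (fun s => if h ≤ s then 1 else 0)) := by
  classical
  set N := NN p K with hN
  have hN0 : 0 < N := by
    rw [hN]; unfold NN; exact prod_pos (fun i _ => (hp i).pos)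
  have hN0' : (0 : ℝ) < N := by exact_mod_cast hN0
  set F := (range N).filter (fun z : ℕ => h ≤ steps p K (z : ℤ)) with hF
  have hsub : {x : ℝ | x ∈ Set.Icc (0 : ℝ) 1 ∧ h ≤ steps p K ⌊(N : ℝ) * x⌋} ⊆
      {(1 : ℝ)} ∪ ⋃ z ∈ F, Set.Ico ((z : ℝ) / N) (((z : ℝ) + 1) / N) := by
    rintro x ⟨⟨hx0, hx1⟩, hx⟩
    rcases eq_or_lt_of_le hx1 with h1 | h1
    · left; exact h1
    · right
      have hfl0 : 0 ≤ ⌊(N : ℝ) * x⌋ := Int.floor_nonneg.mpr (by positivity)
      obtain ⟨z, hz⟩ := Int.eq_ofNat_of_zero_le hfl0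
      have hz1 : (z : ℝ) ≤ (N : ℝ) * x := by
        have := Int.floor_le ((N : ℝ) * x)
        rw [hz] at this; exact_mod_cast this
      have hz2 : (N : ℝ) * x < (z : ℝ) + 1 := by
        have := Int.lt_floor_add_one ((N : ℝ) * x)
        rw [hz] at this; exact_mod_cast this
      have hzN : z < N := by
        have : (z : ℝ) < (N : ℝ) := by nlinarith
        exact_mod_cast this
      rw [Set.mem_iUnion₂]
      refine ⟨z, ?_, ?_⟩
      · rw [hF, mem_filter]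
        refine ⟨mem_range.mpr hzN, ?_⟩
        rw [hz] at hx
        exact hx
      · rw [Set.mem_Ico]
        constructor
        · rw [div_le_iff₀ hN0']; linarith
        · rw [lt_div_iff₀ hN0']; linarith
  calc volume {x : ℝ | x ∈ Set.Icc (0 : ℝ) 1 ∧ h ≤ steps p K ⌊(N : ℝ) * x⌋}
      ≤ volume ({(1 : ℝ)} ∪ ⋃ z ∈ F, Set.Ico ((z : ℝ) / N) (((z : ℝ) + 1) / N)) := measure_mono hsub
    _ ≤ volume {(1 : ℝ)} + volume (⋃ z ∈ F, Set.Ico ((z : ℝ) / N) (((z : ℝ) + 1) / N)) :=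
        measure_union_le _ _
    _ ≤ 0 + ∑ z ∈ F, volume (Set.Ico ((z : ℝ) / N) (((z : ℝ) + 1) / N)) := by
        gcongr
        · simp
        · exact measure_biUnion_finset_le _ _
    _ = ∑ z ∈ F, ENNReal.ofReal (1 / N) := by
        rw [zero_add]
        apply sum_congr rfl
        intro z _
        rw [Real.volume_Ico]
        congr 1
        field_simp
        ring
    _ = ENNReal.ofReal (Ex (fun i => 1 / (p i : ℝ)) K (fun s => if h ≤ s then 1 else 0)) := by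
        rw [sum_const, nsmul_eq_mul, ← ENNReal.ofReal_natCast, ← ENNReal.ofReal_mul (by positivity)]
        congr 1
        have h1 := sum_steps p hp hinj K (fun s => if h ≤ s then 1 else 0)
        rw [← hN] at h1
        have h2 : ∑ z ∈ range N, (if h ≤ steps p K (z : ℤ) then (1 : ℝ) else 0) = F.card := by
          rw [hF, ← sum_filter, sum_const, nsmul_eq_mul, mul_one]
        rw [h2] at h1
        rw [h1]
        field_simp

end Pool.Agent.MTDS
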