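import Mathlib
import Pool.Agent.Lib.MP_649c59_nt.Geom

set_option autoImplicit false

namespace Pool.Agent.MTDS

open Finset MeasureTheory

lemma nth_prime_not_summable : ¬ Summable (fun i : ℕ => 1 / (Nat.nth Nat.Prime i : ℝ)) := by
  intro h
  apply not_summable_one_div_on_primes
  have hinj := Nat.nth_injective Nat.infinite_setOfPred_prime
  rw [← hinj.summable_iff]
  · convert h using 1
    funext i
    simp only [Function.comp]
    rw [Set.indicator_of_mem]
    exact Nat.prime_nth_prime i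
  · intro x hx
    rw [Nat.range_nth_of_infinite Nat.infinite_setOfPred_prime] at hx
    exact Set.indicator_of_notMem hx _

lemma primes_exist (X M : ℕ) : ∃ (p : ℕ → ℕ) (K : ℕ), (∀ i, (p i).Prime) ∧
    Function.Injective p ∧ (∀ i, X < p i) ∧ (M : ℝ) ^ 2 ≤ ∑ t ∈ range K, 1 / (p t : ℝ) ∧
    ∑ t ∈ range K, 1 / (p t : ℝ) ≤ (M : ℝ) ^ 2 + 1 := by
  set p : ℕ → ℕ := fun i => Nat.nth Nat.Prime (i + X) with hpdef
  have hp : ∀ i, (p i).Prime := fun i => Nat.prime_nth_prime _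
  have hinj : Function.Injective p := by
    intro a b h
    have := Nat.nth_injective Nat.infinite_setOfPred_prime h
    omega
  have hX : ∀ i, X < p i := by
    intro i
    have := Nat.add_two_le_nth_prime (i + X)
    simp only [hpdef]
    omega
  have hns : ¬ Summable (fun i : ℕ => 1 / (p i : ℝ)) := by
    have := nth_prime_not_summable
    rw [← summable_nat_add_iff X] at this
    exact this
  rw [not_summable_iff_tendsto_nat_atTop_of_nonneg (fun n => by positivity)] at hns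
  have hex : ∃ K, (M : ℝ) ^ 2 ≤ ∑ t ∈ range K, 1 / (p t : ℝ) := by
    obtain ⟨i, hi⟩ := (Filter.tendsto_atTop_atTop.mp hns) ((M : ℝ) ^ 2)
    exact ⟨i, hi i le_rfl⟩
  classical
  refine ⟨p, Nat.find hex, hp, hinj, hX, Nat.find_spec hex, ?_⟩
  rcases Nat.eq_zero_or_pos (Nat.find hex) with h0 | h0
  · rw [h0]
    simp
    positivity
  · obtain ⟨K', hK'⟩ : ∃ K', Nat.find hex = K' + 1 := ⟨Nat.find hex - 1, by omega⟩
    rw [hK', sum_range_succ]
    have h1 : ∑ t ∈ range K', 1 / (p t : ℝ) < (M : ℝ) ^ 2 := by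
      have := Nat.find_min hex (m := K') (by omega)
      push Not at this
      exact this
    have h2 : 1 / (p K' : ℝ) ≤ 1 := by
      have : (1 : ℝ) ≤ p K' := by exact_mod_cast (hp K').one_lt.le
      rw [div_le_one (by linarith)]
      exact this
    linarith

/-- product of the primes outside `A` -/
def qA (p : ℕ → ℕ) (K : ℕ) (A : Finset ℕ) : ℕ := ∏ t ∈ range K \ A, p t

lemma dvd_qA (p : ℕ → ℕ) (hp : ∀ i, (p i).Prime) (hinj : Function.Injective p) (K : ℕ)
    (A : Finset ℕ) (t : ℕ) : p t ∣ qA p K A ↔ t ∈ range K \ A := by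
  unfold qA
  constructor
  · intro h
    rw [(hp t).prime.dvd_finsetProd_iff] at h
    obtain ⟨i, hi, hd⟩ := h
    rw [Nat.prime_dvd_prime_iff_eq (hp t) (hp i)] at hd
    have := hinj hd
    subst this
    exact hi
  · intro h
    exact dvd_prod_of_mem p h

/-- recover `A` from `q` -/
def Aof (p : ℕ → ℕ) (K : ℕ) (q : ℕ) : Finset ℕ := (range K).filter (fun t => ¬ p t ∣ q)

lemma Aof_qA (p : ℕ → ℕ) (hp : ∀ i, (p i).Prime) (hinj : Function.Injective p) (K : ℕ)
    (A : Finset ℕ) (hA : A ⊆ range K) : Aof p K (qA p K A) = A := by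
  unfold Aof
  ext t
  rw [mem_filter, dvd_qA p hp hinj, mem_sdiff]
  constructor
  · rintro ⟨h1, h2⟩
    by_contra h3
    exact h2 ⟨h1, h3⟩
  · intro h
    exact ⟨hA h, fun h2 => h2.2 h⟩

lemma totient_qA (p : ℕ → ℕ) (hp : ∀ i, (p i).Prime) (hinj : Function.Injective p)
    (S : Finset ℕ) : ((Nat.totient (∏ t ∈ S, p t) : ℕ) : ℝ) / ((∏ t ∈ S, p t : ℕ) : ℝ) =
      ∏ t ∈ S, (1 - 1 / (p t : ℝ)) := by
  induction S using Finset.induction_on with
  | empty => simp
  | insert i S hi ih =>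
    rw [prod_insert hi, prod_insert hi]
    have hcop : Nat.Coprime (p i) (∏ t ∈ S, p t) := by
      apply Nat.Coprime.prod_right
      intro t ht
      rw [Nat.coprime_primes (hp i) (hp t)]
      intro h
      have := hinj h
      subst this
      exact hi ht
    rw [Nat.totient_mul hcop, Nat.totient_prime (hp i), ← ih]
    have h1 : 1 ≤ p i := (hp i).one_lt.le
    have hp0 : (p i : ℝ) ≠ 0 := by exact_mod_cast (hp i).ne_zero
    have hS0 : ((∏ t ∈ S, p t : ℕ) : ℝ) ≠ 0 := by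
      have : 0 < ∏ t ∈ S, p t := prod_pos (fun i _ => (hp i).pos)
      exact_mod_cast this.ne'
    rw [Nat.cast_mul, Nat.cast_mul, Nat.cast_sub h1]
    field_simp
    push_cast
    ring

lemma block (ε : ℝ) (hε : 0 < ε) (X : ℕ) : ∃ (B : Finset ℕ) (ψ y : ℕ → ℝ),
    (∀ q ∈ B, X < q) ∧ (∀ q, 0 ≤ ψ q) ∧
    1 ≤ ∑ q ∈ B, ψ q * ((Nat.totient q : ℕ) : ℝ) / (q : ℝ) ∧
    volume {x : ℝ | x ∈ Set.Icc (0 : ℝ) 1 ∧ ∃ q ∈ B, ∃ a : ℤ,
      |(q : ℝ) * x - (a : ℝ) - y q| < ψ q} ≤ ENNReal.ofReal ε := by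
  classical
  obtain ⟨T0, hT0⟩ := exists_nat_ge (2 / ε)
  obtain ⟨T, hT⟩ : ∃ T, T = T0 + 1 := ⟨_, rfl⟩
  have hT1 : 1 ≤ T := by omega
  have hTε : 2 / (T : ℝ) ^ 2 ≤ ε := by
    have h1 : (2 / ε) ≤ (T : ℝ) := by rw [hT]; push_cast; linarith
    have h2 : (1 : ℝ) ≤ T := by exact_mod_cast hT1
    rw [div_le_iff₀ (by positivity)]
    rw [div_le_iff₀ hε] at h1
    nlinarith
  obtain ⟨C, hC⟩ : ∃ C, C = T + 4 := ⟨_, rfl⟩
  obtain ⟨R, hR⟩ : ∃ R, R = 16 * 2 ^ (2 * (C + 1) * (C + 3)) := ⟨_, rfl⟩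
  have hR1 : 1 ≤ R := by
    rw [hR]; have : 1 ≤ 2 ^ (2 * (C + 1) * (C + 3)) := Nat.one_le_two_pow
    omega
  obtain ⟨M, hM⟩ : ∃ M, M = 2 * (C + 1) * R := ⟨_, rfl⟩
  have hMR : R ≤ M := by rw [hM]; nlinarith
  have hM10 : 10 ≤ M := by rw [hM, hC]; nlinarith
  have hM10' : (10 : ℝ) ≤ M := by exact_mod_cast hM10
  obtain ⟨X', hX'⟩ : ∃ X', X' = max X (M ^ 2 + C * M) := ⟨_, rfl⟩
  have hX'1 : X ≤ X' := by rw [hX']; exact le_max_left _ _
  have hX'2 : M ^ 2 + C * M ≤ X' := by rw [hX']; exact le_max_right _ _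
  obtain ⟨p, K, hp, hinj, hpX, hlam1, hlam2⟩ := primes_exist X' M
  set w : ℕ → ℝ := fun i => 1 / (p i : ℝ) with hw
  have hw0 : ∀ i, 0 ≤ w i := fun i => by simp only [hw]; positivity
  have hp1 : ∀ i, (1 : ℝ) ≤ p i := fun i => by exact_mod_cast (hp i).one_lt.le
  have hw1 : ∀ i, w i ≤ 1 := fun i => by
    simp only [hw]; rw [div_le_one (by linarith [hp1 i])]; exact hp1 i
  have hX'pos : 0 < X' := by
    nlinarith
  have hX'pos' : (0 : ℝ) < X' := by exact_mod_cast hX'pos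
  set m : ℝ := 1 / (X' : ℝ) with hm
  have hwm : ∀ i, w i ≤ m := fun i => by
    simp only [hw, hm]
    apply one_div_le_one_div_of_le hX'pos'
    exact_mod_cast (hpX i).le
  have hmm : ((M : ℝ) ^ 2 + C * M) * m ≤ 1 := by
    rw [hm, mul_one_div, div_le_one hX'pos']
    exact_mod_cast hX'2
  have hwin := window_lower w m hw0 hw1 hwm K T C R M hT1 hC hR1 hM hlam1 hlam2 hmm
  obtain ⟨k, hk⟩ : ∃ k, k = M ^ 2 + (T + 2) * M + 1 := ⟨_, rfl⟩
  rw [← hk] at hwin
  -- K is large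
  have hKbig : k + M < K := by
    have h1 : ∑ t ∈ range K, w t ≤ ∑ t ∈ range K, m := sum_le_sum (fun t _ => hwm t)
    rw [sum_const, card_range, nsmul_eq_mul] at h1
    have h2 : (M : ℝ) ^ 2 ≤ (K : ℝ) * m := le_trans hlam1 h1
    have h3 : (M : ℝ) ^ 2 * X' ≤ K := by
      rw [hm, mul_one_div, le_div_iff₀ hX'pos'] at h2
      exact h2
    have h4 : M ^ 2 * X' ≤ K := by exact_mod_cast h3
    have h5 := hX'2
    have h6 : k + M ≤ M ^ 2 + C * M := by rw [hk, hC]; nlinarith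
    have h7 : 2 * X' ≤ M ^ 2 * X' := Nat.mul_le_mul_right _ (by nlinarith)
    omega
  set AA := (range K).powerset.filter (fun A => A.card ∈ Ico k (k + M)) with hAA
  set B := AA.image (qA p K) with hB
  set nA : ℕ → ℕ := fun q => ∏ t ∈ Aof p K q, p t with hnA
  have hnApos : ∀ q, (0 : ℝ) < nA q := fun q => by
    have : 0 < nA q := prod_pos (fun i _ => (hp i).pos)
    exact_mod_cast this
  refine ⟨B, fun q => (M : ℝ) / (nA q : ℝ),
    fun q => (shiftA p hp hinj M (Aof p K q) : ℝ) / (nA q : ℝ), ?_, ?_, ?_, ?_⟩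
  · intro q hq
    rw [hB, mem_image] at hq
    obtain ⟨A, hA, rfl⟩ := hq
    rw [hAA, mem_filter, mem_powerset, mem_Ico] at hA
    obtain ⟨hA1, hA2, hA3⟩ := hA
    have hne : (range K \ A).Nonempty := by
      rw [sdiff_nonempty]
      intro hsub
      have := card_le_card hsub
      rw [card_range] at this
      omega
    obtain ⟨t, ht⟩ := hne
    have h1 : p t ∣ qA p K A := (dvd_qA p hp hinj K A t).mpr ht
    have h2 : 0 < qA p K A := prod_pos (fun i _ => (hp i).pos)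
    have h3 := Nat.le_of_dvd h2 h1
    have h4 := hpX t
    have h5 := hX'1
    omega
  · intro q
    have := hnApos q
    positivity
  · -- the sum
    have hinjOn : Set.InjOn (qA p K) (AA : Set (Finset ℕ)) := by
      intro A hA A' hA' h
      have hA := mem_coe.mp hA
      have hA' := mem_coe.mp hA'
      rw [hAA, mem_filter, mem_powerset] at hA hA'
      have h1 := Aof_qA p hp hinj K A hA.1
      have h2 := Aof_qA p hp hinj K A' hA'.1
      rw [← h1, ← h2, h]
    rw [hB, sum_image hinjOn]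
    have hterm : ∀ A ∈ AA, (M : ℝ) / (nA (qA p K A) : ℝ) * ((Nat.totient (qA p K A) : ℕ) : ℝ) /
        ((qA p K A : ℕ) : ℝ) = (M : ℝ) * ((∏ t ∈ A, w t) * (∏ t ∈ range K \ A, (1 - w t))) := by
      intro A hA
      rw [hAA, mem_filter, mem_powerset] at hA
      have h1 : (nA (qA p K A) : ℝ) = ∏ t ∈ A, (p t : ℝ) := by
        simp only [hnA]
        rw [Aof_qA p hp hinj K A hA.1]
        push_cast
        rfl
      have h2 : ((Nat.totient (qA p K A) : ℕ) : ℝ) / ((qA p K A : ℕ) : ℝ) =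
          ∏ t ∈ range K \ A, (1 - w t) := totient_qA p hp hinj (range K \ A)
      rw [mul_div_assoc, h2, h1]
      have h3 : ∏ t ∈ A, w t = (∏ t ∈ A, (p t : ℝ))⁻¹ := by
        simp only [hw, one_div]
        rw [prod_inv_distrib]
      rw [h3]
      ring
    rw [sum_congr rfl hterm, ← mul_sum]
    have hE : ∑ A ∈ AA, ((∏ t ∈ A, w t) * (∏ t ∈ range K \ A, (1 - w t))) =
        ∑ s ∈ Ico k (k + M), Pm w K s := by
      rw [← Ex_indicator, ← Ex_powerset w K, hAA, sum_filter]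
      apply sum_congr rfl
      intro A _
      split_ifs <;> simp
    rw [hE]
    have hR' : (R : ℝ) = 16 * 2 ^ (2 * (C + 1) * (C + 3)) := by rw [hR]; push_cast; ring
    have hMR' : (R : ℝ) ≤ M := by exact_mod_cast hMR
    calc (1 : ℝ) = (R : ℝ) * (1 / 16 * (1 / 2) ^ (2 * (C + 1) * (C + 3))) := by
          rw [hR', one_div_pow]; field_simp
      _ ≤ (M : ℝ) * ∑ s ∈ Ico k (k + M), Pm w K s := by
          apply mul_le_mul hMR' hwin (by positivity) (by positivity)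
  · -- the measure
    have hsub : {x : ℝ | x ∈ Set.Icc (0 : ℝ) 1 ∧ ∃ q ∈ B, ∃ a : ℤ,
        |(q : ℝ) * x - (a : ℝ) - (shiftA p hp hinj M (Aof p K q) : ℝ) / (nA q : ℝ)| <
          (M : ℝ) / (nA q : ℝ)} ⊆
        {x : ℝ | x ∈ Set.Icc (0 : ℝ) 1 ∧ M ^ 2 + T * M + 2 ≤ steps p K ⌊(NN p K : ℝ) * x⌋} := by
      rintro x ⟨hx, q, hq, a, ha⟩
      refine ⟨hx, ?_⟩
      rw [hB, mem_image] at hq
      obtain ⟨A, hA, rfl⟩ := hq
      rw [hAA, mem_filter, mem_powerset, mem_Ico] at hA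
      obtain ⟨hA1, hA2, hA3⟩ := hA
      simp only [hnA] at ha
      rw [Aof_qA p hp hinj K A hA1] at ha
      have hqn : qA p K A * ∏ t ∈ A, p t = NN p K := by
        unfold qA NN
        exact prod_sdiff hA1
      have h1 := key_dom p hp hinj M K A hA1 (qA p K A) hqn x a ha
      have h2 : k + 1 = M ^ 2 + T * M + 2 + 2 * M := by rw [hk]; ring
      omega
    refine le_trans (measure_mono hsub) (le_trans (meas_walker p hp hinj K _) ?_)
    apply ENNReal.ofReal_le_ofReal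
    have hT' : (1 : ℝ) ≤ T := by exact_mod_cast hT1
    have h1 := Ex_cheb w hw0 hw1 K ((T : ℝ) * M) (by positivity)
      (fun s => if M ^ 2 + T * M + 2 ≤ s then 1 else 0)
      (by intro s; split_ifs <;> norm_num)
      (by
        intro s hs
        rw [if_neg]
        intro hcon
        have hcon' : ((M ^ 2 + T * M + 2 : ℕ) : ℝ) ≤ (s : ℝ) := by exact_mod_cast hcon
        push_cast at hcon'
        rw [abs_lt] at hs
        linarith [hs.2])
    refine le_trans h1 (le_trans ?_ hTε)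
    rw [div_le_div_iff₀ (by positivity) (by positivity)]
    have : ∑ t ∈ range K, w t ≤ 2 * (M : ℝ) ^ 2 := by nlinarith
    calc (∑ t ∈ range K, w t) * (T : ℝ) ^ 2 ≤ 2 * (M : ℝ) ^ 2 * (T : ℝ) ^ 2 :=
          mul_le_mul_of_nonneg_right this (by positivity)
      _ = 2 * ((T : ℝ) * M) ^ 2 := by ring

end Pool.Agent.MTDS
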