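import Mathlib
import Pool.Agent.Lib.MP_649c59_nt.Block

set_option autoImplicit false

namespace Pool.Agent.MTDS

open Finset MeasureTheory

theorem exists_counterexample : ∃ (ψ y : ℕ → ℝ), (∀ q, 0 ≤ ψ q) ∧
    ¬ Summable (fun q : ℕ => ψ q * ((Nat.totient q : ℕ) : ℝ) / (q : ℝ)) ∧
    volume {x : ℝ | x ∈ Set.Icc (0 : ℝ) 1 ∧
      Set.Infinite {p : ℤ × ℕ | 0 < p.2 ∧
        |(p.2 : ℝ) * x - (p.1 : ℝ) - y p.2| < ψ p.2}} = 0 := by
  classical
  -- the blocks
  have hblock : ∀ (l X : ℕ), ∃ (B : Finset ℕ) (ψ y : ℕ → ℝ),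
      (∀ q ∈ B, X < q) ∧ (∀ q, 0 ≤ ψ q) ∧
      1 ≤ ∑ q ∈ B, ψ q * ((Nat.totient q : ℕ) : ℝ) / (q : ℝ) ∧
      volume {x : ℝ | x ∈ Set.Icc (0 : ℝ) 1 ∧ ∃ q ∈ B, ∃ a : ℤ,
        |(q : ℝ) * x - (a : ℝ) - y q| < ψ q} ≤ ENNReal.ofReal ((1 / 2) ^ l) :=
    fun l X => block ((1 / 2) ^ l) (by positivity) X
  choose Bf ψf yf hB1 hB2 hB3 hB4 using hblock
  -- thresholds
  let Xs : ℕ → ℕ := fun l => Nat.rec 0 (fun l X => max X ((Bf l X).sup id)) l
  have hXs : ∀ l, Xs (l + 1) = max (Xs l) ((Bf l (Xs l)).sup id) := fun l => rfl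
  have hXmono : Monotone Xs := monotone_nat_of_le_succ (fun l => by rw [hXs]; exact le_max_left _ _)
  set B : ℕ → Finset ℕ := fun l => Bf l (Xs l) with hB
  have hBlo : ∀ l, ∀ q ∈ B l, Xs l < q := fun l q hq => hB1 l (Xs l) q hq
  have hBhi : ∀ l, ∀ q ∈ B l, q ≤ Xs (l + 1) := by
    intro l q hq
    rw [hXs]
    exact le_trans (Finset.le_sup (f := id) hq) (le_max_right _ _)
  have huniq : ∀ l l' q, q ∈ B l → q ∈ B l' → l = l' := by
    intro l l' q h h'
    rcases lt_trichotomy l l' with h1 | h1 | h1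
    · have := hBhi l q h
      have h2 := hBlo l' q h'
      have h3 : Xs (l + 1) ≤ Xs l' := hXmono h1
      omega
    · exact h1
    · have := hBhi l' q h'
      have h2 := hBlo l q h
      have h3 : Xs (l' + 1) ≤ Xs l := hXmono h1
      omega
  set ψ : ℕ → ℝ := fun q => if h : ∃ l, q ∈ B l then ψf h.choose (Xs h.choose) q else 0 with hψ
  set y : ℕ → ℝ := fun q => if h : ∃ l, q ∈ B l then yf h.choose (Xs h.choose) q else 0 with hy
  have hψB : ∀ l, ∀ q ∈ B l, ψ q = ψf l (Xs l) q := by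
    intro l q hq
    have h : ∃ l, q ∈ B l := ⟨l, hq⟩
    have h1 : h.choose = l := huniq _ _ q h.choose_spec hq
    simp only [hψ]
    rw [dif_pos h, h1]
  have hyB : ∀ l, ∀ q ∈ B l, y q = yf l (Xs l) q := by
    intro l q hq
    have h : ∃ l, q ∈ B l := ⟨l, hq⟩
    have h1 : h.choose = l := huniq _ _ q h.choose_spec hq
    simp only [hy]
    rw [dif_pos h, h1]
  have hψ0 : ∀ q, 0 ≤ ψ q := by
    intro q
    simp only [hψ]
    split_ifs with h
    · exact hB2 _ _ q
    · exact le_rfl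
  have hψout : ∀ q, (¬ ∃ l, q ∈ B l) → ψ q = 0 := by
    intro q h
    simp only [hψ]
    rw [dif_neg h]
  refine ⟨ψ, y, hψ0, ?_, ?_⟩
  · -- divergence
    intro hsum
    set f : ℕ → ℝ := fun q : ℕ => ψ q * ((Nat.totient q : ℕ) : ℝ) / (q : ℝ) with hf
    have hf0 : ∀ q, 0 ≤ f q := fun q => by
      simp only [hf]
      have := hψ0 q
      positivity
    have hpart : ∀ l : ℕ, (l : ℝ) ≤ ∑ q ∈ range (Xs l + 1), f q := by
      intro l
      induction l with
      | zero => simpa using sum_nonneg (fun q _ => hf0 q)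
      | succ l ih =>
        have h1 : range (Xs l + 1) ∪ B l ⊆ range (Xs (l + 1) + 1) := by
          intro q hq
          rw [mem_union] at hq
          rw [mem_range]
          rcases hq with hq | hq
          · have := mem_range.mp hq
            have h2 : Xs l ≤ Xs (l + 1) := hXmono (Nat.le_succ l)
            omega
          · have := hBhi l q hq
            omega
        have hdisj : Disjoint (range (Xs l + 1)) (B l) := by
          rw [disjoint_left]
          intro q hq hq'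
          have := mem_range.mp hq
          have := hBlo l q hq'
          omega
        have h3 : ∑ q ∈ range (Xs l + 1) ∪ B l, f q ≤ ∑ q ∈ range (Xs (l + 1) + 1), f q :=
          sum_le_sum_of_subset_of_nonneg h1 (fun q _ _ => hf0 q)
        rw [sum_union hdisj] at h3
        have h4 : 1 ≤ ∑ q ∈ B l, f q := by
          have := hB3 l (Xs l)
          calc (1 : ℝ) ≤ _ := this
            _ = ∑ q ∈ B l, f q := by
              apply sum_congr rfl
              intro q hq
              simp only [hf]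
              rw [hψB l q hq]
        push_cast
        linarith
    obtain ⟨l, hl⟩ := exists_nat_gt (∑' q, f q)
    have h1 := hpart l
    have h2 := hsum.sum_le_tsum (range (Xs l + 1)) (fun q _ => hf0 q)
    linarith
  · -- the limsup set is null
    set E : ℕ → Set ℝ := fun l => {x : ℝ | x ∈ Set.Icc (0 : ℝ) 1 ∧ ∃ q ∈ Bf l (Xs l), ∃ a : ℤ,
        |(q : ℝ) * x - (a : ℝ) - yf l (Xs l) q| < ψf l (Xs l) q} with hE
    have hEm : ∀ l, volume (E l) ≤ ENNReal.ofReal ((1 / 2) ^ l) := fun l => hB4 l (Xs l)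
    have hsumE : ∑' l, volume (E l) ≠ ⊤ := by
      have h1 : ∑' l, volume (E l) ≤ ∑' l : ℕ, ENNReal.ofReal ((1 / 2) ^ l) :=
        ENNReal.tsum_le_tsum hEm
      have h2 : ∑' l : ℕ, ENNReal.ofReal ((1 / 2) ^ l) = ENNReal.ofReal (∑' l : ℕ, (1 / 2 : ℝ) ^ l) :=
        (ENNReal.ofReal_tsum_of_nonneg (fun l => by positivity) summable_geometric_two).symm
      rw [h2] at h1
      exact ne_top_of_le_ne_top ENNReal.ofReal_ne_top h1
    have hlim := measure_limsup_atTop_eq_zero hsumE
    refine measure_mono_null ?_ hlim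
    rintro x ⟨hx, hinf⟩
    rw [Filter.mem_limsup_iff_frequently_mem, Filter.frequently_atTop]
    intro L
    by_contra hcon
    push Not at hcon
    apply hinf
    -- the set of pairs is finite
    have hfin : Set.Finite (⋃ q ∈ (range (Xs L + 1) : Set ℕ),
        {p : ℤ × ℕ | p.2 = q ∧ |(q : ℝ) * x - (p.1 : ℝ) - y q| < ψ q}) := by
      apply Set.Finite.biUnion (Finset.finite_toSet _)
      intro q _
      have : {p : ℤ × ℕ | p.2 = q ∧ |(q : ℝ) * x - (p.1 : ℝ) - y q| < ψ q} ⊆
          (Set.Icc ⌊(q : ℝ) * x - y q - ψ q⌋ ⌈(q : ℝ) * x - y q + ψ q⌉) ×ˢ ({q} : Set ℕ) := by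
        rintro ⟨a, q'⟩ ⟨h1, h2⟩
        simp only at h1 h2
        refine ⟨⟨?_, ?_⟩, h1⟩
        · rw [abs_lt] at h2
          have h3 : (⌊(q : ℝ) * x - y q - ψ q⌋ : ℝ) ≤ (a : ℝ) := by
            have := Int.floor_le ((q : ℝ) * x - y q - ψ q)
            linarith [h2.2]
          exact_mod_cast h3
        · rw [abs_lt] at h2
          have h3 : (a : ℝ) ≤ (⌈(q : ℝ) * x - y q + ψ q⌉ : ℝ) := by
            have := Int.le_ceil ((q : ℝ) * x - y q + ψ q)
            linarith [h2.1]
          exact_mod_cast h3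
      exact Set.Finite.subset ((Set.finite_Icc _ _).prod (Set.finite_singleton q)) this
    apply hfin.subset
    rintro ⟨a, q⟩ ⟨h1, h2⟩
    simp only at h1 h2
    have hψq : 0 < ψ q := lt_of_le_of_lt (abs_nonneg _) h2
    have hex : ∃ l, q ∈ B l := by
      by_contra hne
      have := hψout q hne
      linarith
    obtain ⟨l, hl⟩ := hex
    have hlL : l < L := by
      by_contra hge
      push Not at hge
      apply hcon l hge
      refine ⟨hx, q, hl, a, ?_⟩
      rw [← hψB l q hl, ← hyB l q hl]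
      exact h2
    rw [Set.mem_iUnion₂]
    refine ⟨q, ?_, rfl, h2⟩
    rw [mem_coe, mem_range]
    have h3 := hBhi l q hl
    have h4 : Xs (l + 1) ≤ Xs L := hXmono hlL
    omega

end Pool.Agent.MTDS
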